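import Pool.Agent.Lib_helper55.Rat.Start
import Pool.Agent.Lib_helper42.Rat.Red524

/-!
The special case `x_n = (α + β_2 x_{n-2}) / (B_3 x_{n-3} + B_4 x_{n-4})` has bounded solutions only.
-/

set_option autoImplicit false

namespace Pool.Agent.RatRec

theorem bdd_5_24 : BoundedOnly (fs 5) (fs 24) :=
  bdd_5_24_of fun _ _ ha hb x hx hrec => Pool.Agent.Rat524.bounded ha hb x hx hrec

end Pool.Agent.RatRec
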