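import Pool.Agent.Lib_helper55.Rat.SysB

/-!
The gain `(1 + b ^ 2 / 2) F ≤ F_1` for `F = b T_0 + T_2` from one block to the previous one, and the
contradiction.
-/

set_option autoImplicit false

namespace Pool.Agent.Rat524

open Filter

variable {ι : Type*} {l : Filter ι}

/-- The exact identity behind the gain. -/
theorem ident {a b Q P v u e3 e2 s e1 Q1 q1 P1 : ℝ}
    (R0 : Q * (b * v + u) = a + P) (R2 : P * (b * e3 + e2) = a + u)
    (R3 : v * (b * e2 + s) = a + e3) (R4 : u * (b * s + e1) = a + e2)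
    (R5 : e3 * (b * e1 + Q1) = a + s) (R6 : e2 * (b * Q1 + q1) = a + e1)
    (R7 : s * (b * q1 + P1) = a + Q1) :
    a * (1 + b ^ 2) * s * (b * Q + P) = a * s * (b * Q1 + P1) + a * b * (s * q1) - a ^ 2 +
      Q1 * e2 - Q1 * u * e1 + b ^ 3 * (P * s * e1 * e3) - P * s * e1 + P * s * e2 * q1 +
      a * b ^ 2 * (s * s) - b * Q * s * (b ^ 2 * e3 + e2) + b ^ 4 * (Q * s * v * e2) +
      b * (Q * s * u * e1) := by
  linear_combination Q1 * R4 + Q1 * b * s * R2 - b ^ 2 * s * P * R5 - s * P * R6 +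
    b ^ 2 * s ^ 2 * R0 - b ^ 3 * Q * s * R3 - b * Q * s * R4 - a * R7

/-- The gain with an error term of order `r`. -/
theorem gain0 {a b : ℝ} {r : ι → ℝ} {T : ℕ → ι → ℝ} (h : Sys l a b r T) (S : Sizes l r T) :
    ∃ C : ℝ, 0 < C ∧ ∀ᶠ i in l,
      (1 + b ^ 2) * (b * T 0 i + T 2 i) ≤ b * T 9 i + T 11 i + C * r i := by
  have p := h.pos
  have ha := h.ha
  have hb := h.hb
  have one_r := h.one_r
  have t1 : Ob l (T 7 * T 10) (r * T 7) := (S.q1.mulR (p 7)).congr (by ring) rfl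
  have t2 : Ob l (T 9 * T 6) (r * T 7) := by
    have c : Ob l (T 9 * T 6) (1 + T 8) := (h.up1 6).congr (by ring) rfl
    exact (c.trans ((Ob.refl 1).add S.e1)).trans S.one_rs
  have t3 : Ob l (T 2 * T 7 * T 8 * T 5) (r * T 7) := by
    have c1 := (S.Pe1.mulR (pos_mul (p 7) (p 5)))
    have c2 := (S.e3.mulL (pos_mul h.rpos (p 7)))
    exact (c1.congr (by ring) (by ring : r * (T 7 * T 5) = r * T 7 * T 5)).trans
      (c2.congr rfl (by ring))
  have t4 : Ob l (T 2 * T 7 * T 6 * T 10) (r * T 7) := by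
    have c1 := (h.up2 2).mulR (pos_mul (p 7) (p 10))
    have c2 := S.uq1.mulR (p 7)
    exact (c1.congr (by ring) (by ring : (1 + T 4) * (T 7 * T 10) = (1 + T 4) * T 10 * T 7)).trans c2
  have t5 : Ob l (T 7 * T 7) (r * T 7) := S.s.mulR (p 7)
  have t6 : Ob l (T 0 * T 7 * T 3 * T 6) (r * T 7) := by
    have c1 := S.vQ.mulR (pos_mul (p 7) (p 6))
    have c2 := (h.up2 2).mulR (p 7)
    have c3 := (one_r.add S.u).mulR (p 7)
    exact ((c1.congr (by ring) (by ring : T 2 * (T 7 * T 6) = T 2 * T 6 * T 7)).trans c2).trans c3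
  have t7 : Ob l (T 0 * T 7 * T 4 * T 8) (r * T 7) := by
    have c1 := S.uQ.mulR (pos_mul (p 7) (p 8))
    have c2 := S.Pe1.mulR (p 7)
    exact (c1.congr (by ring) (by ring : T 2 * (T 7 * T 8) = T 2 * T 8 * T 7)).trans c2
  obtain ⟨C1, hC1, t1⟩ := t1
  obtain ⟨C2, hC2, t2⟩ := t2
  obtain ⟨C3, hC3, t3⟩ := t3
  obtain ⟨C4, hC4, t4⟩ := t4
  obtain ⟨C5, hC5, t5⟩ := t5
  obtain ⟨C6, hC6, t6⟩ := t6
  obtain ⟨C7, hC7, t7⟩ := t7
  refine ⟨(a * b * C1 + C2 + b ^ 3 * C3 + C4 + a * b ^ 2 * C5 + b ^ 4 * C6 + b * C7) / a,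
    by positivity, ?_⟩
  filter_upwards [t1, t2, t3, t4, t5, t6, t7, h.rel 0, h.rel 2, h.rel 3, h.rel 4, h.rel 5,
    h.rel 6, h.rel 7] with i k1 k2 k3 k4 k5 k6 k7 R0 R2 R3 R4 R5 R6 R7
  simp only [Pi.mul_apply] at k1 k2 k3 k4 k5 k6 k7
  have I := ident R0 R2 R3 R4 R5 R6 R7
  have hs := p 7 i
  have has : 0 < a * T 7 i := mul_pos ha hs
  have m1 := mul_le_mul_of_nonneg_left k1 (by positivity : 0 ≤ a * b)
  have m3 := mul_le_mul_of_nonneg_left k3 (by positivity : 0 ≤ b ^ 3)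
  have m5 := mul_le_mul_of_nonneg_left k5 (by positivity : 0 ≤ a * b ^ 2)
  have m6 := mul_le_mul_of_nonneg_left k6 (by positivity : 0 ≤ b ^ 4)
  have m7 := mul_le_mul_of_nonneg_left k7 hb.le
  have n1 : 0 < T 9 i * T 4 i * T 8 i := mul_pos (mul_pos (p 9 i) (p 4 i)) (p 8 i)
  have n2 : 0 < T 2 i * T 7 i * T 8 i := mul_pos (mul_pos (p 2 i) (p 7 i)) (p 8 i)
  have n3 : 0 < b * T 0 i * T 7 i * (b ^ 2 * T 5 i + T 6 i) := by
    have := p 0 i
    have := p 5 i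
    have := p 6 i
    positivity
  have key : a * T 7 i * ((1 + b ^ 2) * (b * T 0 i + T 2 i)) ≤ a * T 7 i * (b * T 9 i + T 11 i +
      (a * b * C1 + C2 + b ^ 3 * C3 + C4 + a * b ^ 2 * C5 + b ^ 4 * C6 + b * C7) / a * r i) := by
    have e1 : a * T 7 i * (b * T 9 i + T 11 i +
      (a * b * C1 + C2 + b ^ 3 * C3 + C4 + a * b ^ 2 * C5 + b ^ 4 * C6 + b * C7) / a * r i) =
      a * T 7 i * (b * T 9 i + T 11 i) + (a * b * (C1 * (r i * T 7 i)) + C2 * (r i * T 7 i) +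
      b ^ 3 * (C3 * (r i * T 7 i)) + C4 * (r i * T 7 i) + a * b ^ 2 * (C5 * (r i * T 7 i)) +
      b ^ 4 * (C6 * (r i * T 7 i)) + b * (C7 * (r i * T 7 i))) := by
      field_simp
    rw [e1]
    have e2 : a * T 7 i * ((1 + b ^ 2) * (b * T 0 i + T 2 i)) =
        a * (1 + b ^ 2) * T 7 i * (b * T 0 i + T 2 i) := by ring
    rw [e2, I]
    have ha2 : 0 < a ^ 2 := by positivity
    linarith
  exact le_of_mul_le_mul_left key has

/-- The gain. -/
theorem gain {a b : ℝ} {r : ι → ℝ} {T : ℕ → ι → ℝ} (h : Sys l a b r T) (S : Sizes l r T)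
    (hF : Ob l (r * r) (fun i => b * T 0 i + T 2 i)) :
    ∀ᶠ i in l, (1 + b ^ 2 / 2) * (b * T 0 i + T 2 i) ≤ b * T 9 i + T 11 i := by
  obtain ⟨C, hC, h1⟩ := gain0 h S
  obtain ⟨D, hD, h2⟩ := hF
  have hb := h.hb
  filter_upwards [h1, h2, h.hr.eventually_ge_atTop (2 * C * D / b ^ 2)] with i k1 k2 k3
  simp only [Pi.mul_apply] at k2
  rw [div_le_iff₀ (by positivity)] at k3
  have hr := h.rpos i
  have k4 : D * (2 * (C * r i)) ≤ D * (b ^ 2 * (b * T 0 i + T 2 i)) := by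
    calc D * (2 * (C * r i)) = 2 * C * D * r i := by ring
      _ ≤ r i * b ^ 2 * r i := mul_le_mul_of_nonneg_right k3 hr.le
      _ = b ^ 2 * (r i * r i) := by ring
      _ ≤ b ^ 2 * (D * (b * T 0 i + T 2 i)) := mul_le_mul_of_nonneg_left k2 (by positivity)
      _ = D * (b ^ 2 * (b * T 0 i + T 2 i)) := by ring
  have k5 := le_of_mul_le_mul_left k4 hD
  linarith

/-- The two types of blocks. -/
def Typ (l : Filter ι) (r : ι → ℝ) (T : ℕ → ι → ℝ) : Prop :=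
  Ob l (r * r) (T 0) ∨ Ob l (r * r) (T 2)

theorem Typ.ob {a b : ℝ} {r : ι → ℝ} {T : ℕ → ι → ℝ} (h : Sys l a b r T) (ht : Typ l r T) :
    Ob l (r * r) (fun i => b * T 0 i + T 2 i) := by
  have hb := h.hb
  rcases ht with ht | ht
  · refine ht.trans (Ob.of_mul_le (1 / b) (by positivity) (Eventually.of_forall fun i => ?_))
    have := h.pos 2 i
    have := h.pos 0 i
    rw [div_mul_eq_mul_div, le_div_iff₀ hb]
    nlinarith
  · refine ht.trans (Ob.of_le (Eventually.of_forall fun i => ?_))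
    have := mul_pos hb (h.pos 0 i)
    linarith

theorem block {a b : ℝ} {r : ι → ℝ} {T : ℕ → ι → ℝ} (h : Sys l a b r T) (ht : Typ l r T) :
    Sys l a b r (sh T) ∧ Typ l r (sh T) ∧
      ∀ᶠ i in l, (1 + b ^ 2 / 2) * (b * T 0 i + T 2 i) ≤ b * T 9 i + T 11 i := by
  have hF := ht.ob h
  rcases ht with ht | ht
  · have F := factsA h ht
    exact ⟨h.shift F.QQ F.PP, Or.inl (ht.trans F.QQ), gain h (sizesA h ht) hF⟩
  · have F := factsB h ht
    exact ⟨h.shift F.QQ F.PP, Or.inr (ht.trans F.PP), gain h (sizesB h ht) hF⟩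

theorem blocks {a b : ℝ} {r : ι → ℝ} {T : ℕ → ι → ℝ} (h : Sys l a b r T) (ht : Typ l r T)
    (j : ℕ) : Sys l a b r (fun k => T (k + 9 * j)) ∧ Typ l r (fun k => T (k + 9 * j)) ∧
      ∀ᶠ i in l, (1 + b ^ 2 / 2) ^ j * (b * T 0 i + T 2 i) ≤ b * T (9 * j) i + T (2 + 9 * j) i := by
  induction j with
  | zero =>
    refine ⟨?_, ?_, ?_⟩
    · simpa using h
    · simpa using ht
    · simp
  | succ j ih =>
    obtain ⟨h1, h2, h3⟩ := ih
    obtain ⟨k1, k2, k3⟩ := block h1 h2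
    have e : sh (fun k => T (k + 9 * j)) = fun k => T (k + 9 * (j + 1)) := by
      funext k
      simp only [sh]
      congr 1
      ring
    rw [e] at k1 k2
    refine ⟨k1, k2, ?_⟩
    have hb := h.hb
    filter_upwards [h3, k3] with i m1 m2
    have e1 : 9 + 9 * j = 9 * (j + 1) := by ring
    have e2 : 11 + 9 * j = 2 + 9 * (j + 1) := by ring
    have e3 : 0 + 9 * j = 9 * j := by ring
    rw [e1, e2, e3] at m2
    calc (1 + b ^ 2 / 2) ^ (j + 1) * (b * T 0 i + T 2 i) =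
        (1 + b ^ 2 / 2) * ((1 + b ^ 2 / 2) ^ j * (b * T 0 i + T 2 i)) := by ring
      _ ≤ (1 + b ^ 2 / 2) * (b * T (9 * j) i + T (2 + 9 * j) i) :=
        mul_le_mul_of_nonneg_left m1 (by positivity)
      _ ≤ _ := m2

/-- There is no such family of windows. -/
theorem bot_of_sys {a b : ℝ} {r : ι → ℝ} {T : ℕ → ι → ℝ} (h : Sys l a b r T) (ht : Typ l r T)
    (hold : ∀ k, 3 ≤ k → ∀ᶠ i in l, T k i ≤ r i * r i) : l = ⊥ := by
  have hb := h.hb
  obtain ⟨D, hD, h1⟩ := ht.ob h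
  have hg : 1 < 1 + b ^ 2 / 2 := by
    have : 0 < b ^ 2 := by positivity
    linarith
  obtain ⟨j, hj⟩ := pow_unbounded_of_one_lt (D * (b + 1)) hg
  have hj2 : D * (b + 1) < (1 + b ^ 2 / 2) ^ (j + 1) := by
    refine lt_of_lt_of_le hj ?_
    exact pow_le_pow_right₀ hg.le (Nat.le_succ j)
  obtain ⟨-, -, h2⟩ := blocks h ht (j + 1)
  have hfalse : ∀ᶠ i in l, False := by
    filter_upwards [h1, h2, hold (9 * (j + 1)) (by omega), hold (2 + 9 * (j + 1)) (by omega)] with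
      i m1 m2 m3 m4
    simp only [Pi.mul_apply] at m1
    have hr := mul_pos (h.rpos i) (h.rpos i)
    have m5 : b * T (9 * (j + 1)) i ≤ b * (r i * r i) := mul_le_mul_of_nonneg_left m3 hb.le
    have m6 : (1 + b ^ 2 / 2) ^ (j + 1) * (r i * r i) ≤ D * (b + 1) * (r i * r i) := by
      calc (1 + b ^ 2 / 2) ^ (j + 1) * (r i * r i)
          ≤ (1 + b ^ 2 / 2) ^ (j + 1) * (D * (b * T 0 i + T 2 i)) :=
            mul_le_mul_of_nonneg_left m1 (by positivity)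
        _ = D * ((1 + b ^ 2 / 2) ^ (j + 1) * (b * T 0 i + T 2 i)) := by ring
        _ ≤ D * (b * T (9 * (j + 1)) i + T (2 + 9 * (j + 1)) i) :=
            mul_le_mul_of_nonneg_left m2 hD.le
        _ ≤ D * (b * (r i * r i) + r i * r i) :=
            mul_le_mul_of_nonneg_left (by linarith) hD.le
        _ = D * (b + 1) * (r i * r i) := by ring
    have m7 := mul_lt_mul_of_pos_right hj2 hr
    linarith
  rwa [Filter.eventually_false_iff_eq_bot] at hfalse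

end Pool.Agent.Rat524
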