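import Mathlib

/-!
A small calculus of order of magnitude estimates along a filter.
-/

set_option autoImplicit false

namespace Pool.Agent.Rat524

open Filter

variable {ι : Type*} {l : Filter ι}

/-- `f` is bounded by a constant multiple of `g` along `l`. -/
def Ob (l : Filter ι) (f g : ι → ℝ) : Prop := ∃ C : ℝ, 0 < C ∧ ∀ᶠ i in l, f i ≤ C * g i

theorem Ob.congr {f g f' g' : ι → ℝ} (h : Ob l f g) (hf : f = f') (hg : g = g') : Ob l f' g' := by
  subst hf hg
  exact h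

theorem Ob.of_mul_le {f g : ι → ℝ} (C : ℝ) (hC : 0 < C) (h : ∀ᶠ i in l, f i ≤ C * g i) :
    Ob l f g := ⟨C, hC, h⟩

theorem Ob.of_le {f g : ι → ℝ} (h : ∀ᶠ i in l, f i ≤ g i) : Ob l f g :=
  ⟨1, one_pos, h.mono fun i hi => by linarith⟩

theorem Ob.refl (f : ι → ℝ) : Ob l f f := Ob.of_le (Eventually.of_forall fun _ => le_rfl)

theorem Ob.trans {f g h : ι → ℝ} (h1 : Ob l f g) (h2 : Ob l g h) : Ob l f h := by
  obtain ⟨C, hC, h1⟩ := h1
  obtain ⟨D, hD, h2⟩ := h2
  refine ⟨C * D, mul_pos hC hD, ?_⟩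
  filter_upwards [h1, h2] with i hi hj
  calc f i ≤ C * g i := hi
    _ ≤ C * (D * h i) := mul_le_mul_of_nonneg_left hj hC.le
    _ = C * D * h i := by ring

theorem Ob.add {f g h : ι → ℝ} (h1 : Ob l f h) (h2 : Ob l g h) : Ob l (f + g) h := by
  obtain ⟨C, hC, h1⟩ := h1
  obtain ⟨D, hD, h2⟩ := h2
  refine ⟨C + D, add_pos hC hD, ?_⟩
  filter_upwards [h1, h2] with i hi hj
  simp only [Pi.add_apply]
  linarith [add_mul C D (h i)]

theorem Ob.mulL {f g : ι → ℝ} {c : ι → ℝ} (hc : ∀ i, 0 < c i) (h : Ob l f g) :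
    Ob l (c * f) (c * g) := by
  obtain ⟨C, hC, h⟩ := h
  refine ⟨C, hC, ?_⟩
  filter_upwards [h] with i hi
  simp only [Pi.mul_apply]
  calc c i * f i ≤ c i * (C * g i) := mul_le_mul_of_nonneg_left hi (hc i).le
    _ = C * (c i * g i) := by ring

theorem Ob.mulR {f g : ι → ℝ} {c : ι → ℝ} (hc : ∀ i, 0 < c i) (h : Ob l f g) :
    Ob l (f * c) (g * c) := by
  rw [mul_comm f c, mul_comm g c]
  exact h.mulL hc

theorem Ob.cancelL {f g : ι → ℝ} {c : ι → ℝ} (hc : ∀ i, 0 < c i) (h : Ob l (c * f) (c * g)) :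
    Ob l f g := by
  obtain ⟨C, hC, h⟩ := h
  refine ⟨C, hC, ?_⟩
  filter_upwards [h] with i hi
  simp only [Pi.mul_apply] at hi
  have : c i * f i ≤ c i * (C * g i) := by
    calc c i * f i ≤ C * (c i * g i) := hi
      _ = c i * (C * g i) := by ring
  exact le_of_mul_le_mul_left this (hc i)

theorem Ob.of_add_left {f f' g : ι → ℝ} (hf' : ∀ i, 0 < f' i) (h : Ob l (f + f') g) :
    Ob l f g := by
  refine Ob.trans (Ob.of_le (Eventually.of_forall fun i => ?_)) h
  simp only [Pi.add_apply]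
  linarith [hf' i]

theorem Ob.of_add_right {f f' g : ι → ℝ} (hf : ∀ i, 0 < f i) (h : Ob l (f + f') g) :
    Ob l f' g := by
  rw [add_comm] at h
  exact h.of_add_left hf

theorem Ob.add_left {f g : ι → ℝ} (g' : ι → ℝ) (hg : ∀ i, 0 < g' i) (h : Ob l f g) :
    Ob l f (g + g') := by
  refine h.trans (Ob.of_le (Eventually.of_forall fun i => ?_))
  simp only [Pi.add_apply]
  linarith [hg i]

theorem Ob.add_right {f g : ι → ℝ} (g' : ι → ℝ) (hg : ∀ i, 0 < g' i) (h : Ob l f g) :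
    Ob l f (g' + g) := by
  rw [add_comm]
  exact h.add_left g' hg

/-- Absorption of a term of smaller order. -/
theorem Ob.absorb {X Y Z r : ι → ℝ} (hr : Tendsto r l atTop) (hZ : ∀ i, 0 < Z i)
    (h : Ob l X (Y + Z)) (hz : Ob l (r * Z) X) : Ob l X Y := by
  obtain ⟨C, hC, h⟩ := h
  obtain ⟨D, hD, hz⟩ := hz
  refine ⟨2 * C, by positivity, ?_⟩
  filter_upwards [h, hz, hr.eventually_ge_atTop (2 * C * D)] with i h1 h2 h3
  simp only [Pi.add_apply, Pi.mul_apply] at h1 h2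
  have hZi := hZ i
  have h4 : 2 * C * D * Z i ≤ r i * Z i := mul_le_mul_of_nonneg_right h3 hZi.le
  have h5 : D * (2 * C * Z i) ≤ D * X i := by
    calc D * (2 * C * Z i) = 2 * C * D * Z i := by ring
      _ ≤ r i * Z i := h4
      _ ≤ D * X i := h2
  have h6 : 2 * C * Z i ≤ X i := le_of_mul_le_mul_left h5 hD
  have h7 : C * (Y i + Z i) = C * Y i + C * Z i := by ring
  linarith

/-- A quadratic bound. -/
theorem Ob.of_sq {X : ι → ℝ} (hX : ∀ i, 0 < X i) (h : Ob l (X * X) (X + 1)) : Ob l X 1 := by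
  obtain ⟨C, hC, h⟩ := h
  refine ⟨1 + 2 * C, by positivity, ?_⟩
  filter_upwards [h] with i hi
  simp only [Pi.add_apply, Pi.mul_apply, Pi.one_apply] at hi ⊢
  by_contra hcon
  push Not at hcon
  have h1 : 1 < X i := by linarith
  have h2 : X i * X i ≤ C * (X i + X i) :=
    hi.trans (mul_le_mul_of_nonneg_left (by linarith) hC.le)
  have h3 : X i * X i ≤ X i * (2 * C) := by
    calc X i * X i ≤ C * (X i + X i) := h2
      _ = X i * (2 * C) := by ring
  have h4 : X i ≤ 2 * C := le_of_mul_le_mul_left h3 (hX i)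
  linarith

/-- `1 ≼ v + u v` implies `1 ≼ v + u`. -/
theorem Ob.of_uv {u v : ι → ℝ} (hu : ∀ i, 0 < u i) (hv : ∀ i, 0 < v i)
    (h : Ob l 1 (v + u * v)) : Ob l 1 (v + u) := by
  obtain ⟨C, hC, h⟩ := h
  refine ⟨1 + 2 * C, by positivity, ?_⟩
  filter_upwards [h] with i hi
  simp only [Pi.add_apply, Pi.mul_apply, Pi.one_apply] at hi ⊢
  have hu' := hu i
  have hv' := hv i
  by_cases h1 : 1 ≤ u i
  · nlinarith [mul_pos hC hu', mul_pos hC hv']
  · push Not at h1
    have h2 : u i * v i ≤ v i := by nlinarith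
    nlinarith [mul_pos hC hu', mul_pos hC hv']

end Pool.Agent.Rat524
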