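import Pool.Agent.Lib_helper55.Rat.Gain

/-!
The start of the descent: a block of type B behind a record, and the boundedness theorem for
`x_n (b x_{n-3} + x_{n-4}) = a + x_{n-2}`.
-/

set_option autoImplicit false

namespace Pool.Agent.Rat524

open Filter

variable {ι : Type*} {l : Filter ι}

/-- The windows behind a record `T 2 = r ^ 2`; nothing is known about `T 0` and `T 1`. -/
structure Pre (l : Filter ι) (a b : ℝ) (r : ι → ℝ) (T : ℕ → ι → ℝ) : Prop where
  ha : 0 < a
  hb : 0 < b
  hr : Tendsto r l atTop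
  rpos : ∀ i, 0 < r i
  pos : ∀ k i, 0 < T k i
  rel : ∀ k, ∀ᶠ i in l, T k i * (b * T (k + 3) i + T (k + 4) i) = a + T (k + 2) i
  old : ∀ k, 3 ≤ k → Ob l (T k) (r * r)
  P : T 2 = r * r
  u : Ob l (T 4) r

namespace Pre

variable {a b : ℝ} {r : ι → ℝ} {T : ℕ → ι → ℝ}

theorem up1 (h : Pre l a b r T) (k : ℕ) : Ob l (T k * T (k + 3)) (1 + T (k + 2)) := by
  have ha := h.ha
  have hb := h.hb
  refine Ob.of_mul_le ((a + 1) / b) (by positivity) ?_
  filter_upwards [h.rel k] with i hi
  simp only [Pi.add_apply, Pi.mul_apply, Pi.one_apply]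
  have h0 := h.pos k i
  have h2 := h.pos (k + 2) i
  have h3 := h.pos (k + 3) i
  have h4 := h.pos (k + 4) i
  rw [div_mul_eq_mul_div, le_div_iff₀ hb]
  nlinarith [mul_pos h0 h4, mul_pos ha h2]

theorem up2 (h : Pre l a b r T) (k : ℕ) : Ob l (T k * T (k + 4)) (1 + T (k + 2)) := by
  have ha := h.ha
  have hb := h.hb
  refine Ob.of_mul_le (a + 1) (by positivity) ?_
  filter_upwards [h.rel k] with i hi
  simp only [Pi.add_apply, Pi.mul_apply, Pi.one_apply]
  have h0 := h.pos k i
  have h2 := h.pos (k + 2) i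
  have h3 := h.pos (k + 3) i
  have h4 := h.pos (k + 4) i
  nlinarith [mul_pos h0 h3, mul_pos ha h2, mul_pos (mul_pos h0 h3) hb]

theorem lo (h : Pre l a b r T) (k : ℕ) :
    Ob l (1 + T (k + 2)) (T k * (T (k + 3) + T (k + 4))) := by
  have ha := h.ha
  have hb := h.hb
  refine Ob.of_mul_le ((b + 1) * (1 + 1 / a)) (by positivity) ?_
  filter_upwards [h.rel k] with i hi
  simp only [Pi.add_apply, Pi.mul_apply, Pi.one_apply]
  have h0 := h.pos k i
  have h2 := h.pos (k + 2) i
  have h3 := h.pos (k + 3) i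
  have h4 := h.pos (k + 4) i
  have e1 : 1 + T (k + 2) i ≤ (1 + 1 / a) * (a + T (k + 2) i) := by
    have : (1 + 1 / a) * (a + T (k + 2) i) = a + T (k + 2) i + 1 + T (k + 2) i / a := by
      field_simp
      ring
    rw [this]
    have : 0 < T (k + 2) i / a := by positivity
    linarith
  have e2 : a + T (k + 2) i ≤ (b + 1) * (T k i * (T (k + 3) i + T (k + 4) i)) := by
    rw [← hi]
    nlinarith [mul_pos h0 h3, mul_pos h0 h4, mul_pos (mul_pos h0 h4) hb]
  calc 1 + T (k + 2) i ≤ (1 + 1 / a) * (a + T (k + 2) i) := e1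
    _ ≤ (1 + 1 / a) * ((b + 1) * (T k i * (T (k + 3) i + T (k + 4) i))) :=
        mul_le_mul_of_nonneg_left e2 (by positivity)
    _ = _ := by ring

theorem one_r (h : Pre l a b r T) : Ob l 1 r :=
  Ob.of_le (by
    filter_upwards [h.hr.eventually_ge_atTop 1] with i hi
    simpa using hi)

theorem sys (h : Pre l a b r T) : Sys l a b r T := by
  have p := h.pos
  have one_r := h.one_r
  have r_rr : Ob l r (r * r) := (one_r.mulL h.rpos).congr (by ring) rfl
  have one_rr : Ob l 1 (r * r) := one_r.trans r_rr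
  have hrr := pos_mul h.rpos h.rpos
  have uu : Ob l (1 + T 4) r := one_r.add h.u
  have re3 : Ob l (r * T 5) 1 := by
    refine Ob.cancelL h.rpos ?_
    have c := (h.up1 2).trans uu
    rw [h.P] at c
    exact c.congr (by ring) (by ring)
  have re2 : Ob l (r * T 6) 1 := by
    refine Ob.cancelL h.rpos ?_
    have c := (h.up2 2).trans uu
    rw [h.P] at c
    exact c.congr (by ring) (by ring)
  have e3 : Ob l (T 5) 1 := ((one_r.mulR (p 5)).congr (by ring) rfl).trans re3
  have e2 : Ob l (T 6) 1 := ((one_r.mulR (p 6)).congr (by ring) rfl).trans re2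
  have one_e3 : Ob l (1 + T 5) 1 := (Ob.refl 1).add e3
  have ve2 : Ob l (T 3 * T 6) 1 := (h.up1 3).trans one_e3
  have vs : Ob l (T 3 * T 7) 1 := (h.up2 3).trans one_e3
  have old2 : Ob l (T 8 + T 9) (r * r) := (h.old 8 (by norm_num)).add (h.old 9 (by norm_num))
  -- `r ≼ e1 + Q1`
  have rr1 : Ob l r (T 8 + T 9) := by
    have c : Ob l 1 (T 5 * (T 8 + T 9)) := ((Ob.refl _).add_left _ (p 7)).trans (h.lo 5)
    have d := c.mulL h.rpos
    have e := re3.mulR (pos_add (p 8) (p 9))
    exact (d.congr (by ring) rfl).trans (e.congr (by ring) (by ring))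
  have ve1 : Ob l (T 3 * T 8) (r * r) := by
    have c : Ob l (T 8) (T 6 * (T 9 + T 10)) :=
      ((Ob.refl _).add_right 1 Sys.one_pos').trans (h.lo 6)
    have d := c.mulL (p 3)
    have e := ve2.mulR (pos_add (p 9) (p 10))
    exact (d.trans (e.congr (by ring) (by ring : (1 : ι → ℝ) * (T 9 + T 10) = T 9 + T 10))).trans
      ((h.old 9 (by norm_num)).add (h.old 10 (by norm_num)))
  have vQ1 : Ob l (T 3 * T 9) (r * r) := by
    have c : Ob l (T 9) (T 7 * (T 10 + T 11)) :=
      ((Ob.refl _).add_right 1 Sys.one_pos').trans (h.lo 7)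
    have d := c.mulL (p 3)
    have e := vs.mulR (pos_add (p 10) (p 11))
    exact (d.trans (e.congr (by ring) (by ring : (1 : ι → ℝ) * (T 10 + T 11) = T 10 + T 11))).trans
      ((h.old 10 (by norm_num)).add (h.old 11 (by norm_num)))
  have v : Ob l (T 3) r := by
    refine Ob.cancelL h.rpos ?_
    have c := rr1.mulR (p 3)
    exact c.trans ((ve1.add vQ1).congr (by ring) rfl)
  have Qlo : Ob l r (T 0) := by
    refine Ob.cancelL h.rpos ?_
    have c : Ob l (T 2) (T 0 * (T 3 + T 4)) :=
      ((Ob.refl _).add_right 1 Sys.one_pos').trans (h.lo 0)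
    rw [h.P] at c
    exact c.trans (((v.add h.u).mulL (p 0)).congr rfl (by ring))
  -- the upper bound
  have s : Ob l (T 7) (1 + T 4) := by
    refine Ob.cancelL hrr ?_
    have c1 : Ob l (T 7) (T 5 * (T 8 + T 9)) :=
      ((Ob.refl _).add_right 1 Sys.one_pos').trans (h.lo 5)
    have c2 := c1.mulL hrr
    have c3 := (h.up1 2).mulR (pos_add (p 8) (p 9))
    rw [h.P] at c3
    have c4 := old2.mulL (pos_add Sys.one_pos' (p 4))
    exact (c2.trans (c3.congr (by ring) rfl)).trans (c4.congr rfl (by ring))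
  have one_uv : Ob l 1 (T 3 + T 4) := by
    refine Ob.of_uv (p 4) (p 3) ?_
    have c1 : Ob l 1 (T 3 * (T 6 + T 7)) := ((Ob.refl _).add_left _ (p 5)).trans (h.lo 3)
    have c2 : Ob l (T 6 + T 7) (1 + T 4) := by
      refine Ob.add (e2.trans ?_) s
      exact (Ob.refl 1).add_left _ (p 4)
    exact c1.trans ((c2.mulL (p 3)).congr rfl (by ring))
  have Qhi : Ob l (T 0) (r * r) := by
    have c1 : Ob l (T 0) (T 0 * (T 3 + T 4)) := (one_uv.mulL (p 0)).congr (by ring) rfl
    have c2 : Ob l (1 + T 2) (r * r) := by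
      rw [h.P]
      exact one_rr.add (Ob.refl _)
    refine c1.trans ?_
    refine (Ob.add (f := T 0 * T 3) (g := T 0 * T 4) ?_ ?_).congr (by ring) rfl
    · exact (h.up1 0).trans c2
    · exact (h.up2 0).trans c2
  exact ⟨h.ha, h.hb, h.hr, h.rpos, h.pos, h.rel, h.old, by rw [h.P]; exact r_rr, Qlo,
    by rw [h.P]; exact Ob.refl _, Qhi⟩

end Pre

/-- Positive solutions of `x_n (b x_{n-3} + x_{n-4}) = a + x_{n-2}` are bounded. -/
theorem bounded {a b : ℝ} (ha : 0 < a) (hb : 0 < b) (x : ℕ → ℝ) (hx : ∀ n, 0 < x n)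
    (hrec : ∀ n, x (n + 4) * (b * x (n + 1) + x n) = a + x (n + 2)) : ∃ M : ℝ, ∀ n, x n ≤ M := by
  classical
  by_contra hcon
  push Not at hcon
  let M : ℕ → ℝ := fun i => (i : ℝ) + 1 + ∑ m ∈ Finset.range (i + 1), x m
  have hM : ∀ i, ∃ n, M i < x n := fun i => hcon (M i)
  let N : ℕ → ℕ := fun i => Nat.find (hM i)
  have hN1 : ∀ i, M i < x (N i) := fun i => Nat.find_spec (hM i)
  have hN2 : ∀ i m, m < N i → x m ≤ M i := fun i m hm => not_lt.mp (Nat.find_min (hM i) hm)
  have hN3 : ∀ i m, m ≤ N i → x m ≤ x (N i) := by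
    intro i m hm
    rcases hm.lt_or_eq with h | h
    · exact (hN2 i m h).trans (hN1 i).le
    · rw [h]
  have hMx : ∀ i m, m ≤ i → x m ≤ M i := by
    intro i m hm
    have h1 : x m ≤ ∑ m ∈ Finset.range (i + 1), x m :=
      Finset.single_le_sum (f := x) (fun j _ => (hx j).le) (Finset.mem_range.mpr (by omega))
    have h2 : (0 : ℝ) ≤ i := Nat.cast_nonneg i
    simp only [M]
    linarith
  have hN4 : ∀ i, i < N i := by
    intro i
    by_contra h
    push Not at h
    exact absurd (hMx i (N i) h) (not_le.mpr (hN1 i))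
  have hMi : ∀ i : ℕ, (i : ℝ) + 1 ≤ x (N i) := by
    intro i
    have h1 : (0 : ℝ) ≤ ∑ m ∈ Finset.range (i + 1), x m :=
      Finset.sum_nonneg fun j _ => (hx j).le
    have h2 := hN1 i
    simp only [M] at h2
    linarith
  let r : ℕ → ℝ := fun i => Real.sqrt (x (N i))
  have hrr : ∀ i, r i * r i = x (N i) := fun i => Real.mul_self_sqrt (hx _).le
  have rpos : ∀ i, 0 < r i := fun i => Real.sqrt_pos.mpr (hx _)
  have hr : Tendsto r atTop atTop := by
    refine Real.tendsto_sqrt_atTop.comp ?_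
    refine tendsto_atTop_mono hMi ?_
    exact tendsto_atTop_add_const_right _ _ tendsto_natCast_atTop_atTop
  have hrone : ∀ i, 1 ≤ r i := by
    intro i
    have h1 := hMi i
    have h2 : (0 : ℝ) ≤ i := Nat.cast_nonneg i
    rw [show (1 : ℝ) = Real.sqrt 1 from Real.sqrt_one.symm]
    exact Real.sqrt_le_sqrt (by linarith)
  let S : Set ℕ := {i | r i ≤ x (N i - 2)}
  have evN : ∀ k : ℕ, ∀ᶠ i in (atTop : Filter ℕ), k ≤ N i := by
    intro k
    filter_upwards [eventually_ge_atTop k] with i hi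
    exact hi.trans (hN4 i).le
  -- type A
  have hA : (atTop ⊓ 𝓟 S : Filter ℕ) = ⊥ := by
    let T : ℕ → ℕ → ℝ := fun k i => x (N i - k)
    have hold : ∀ k, 3 ≤ k → ∀ᶠ i in (atTop ⊓ 𝓟 S : Filter ℕ), T k i ≤ r i * r i := by
      intro k _
      refine Eventually.of_forall fun i => ?_
      rw [hrr]
      exact hN3 i _ (Nat.sub_le _ _)
    have hall : ∀ k, Ob (atTop ⊓ 𝓟 S : Filter ℕ) (T k) (r * r) := by
      intro k
      refine Ob.of_le (Eventually.of_forall fun i => ?_)
      simp only [Pi.mul_apply]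
      rw [hrr]
      exact hN3 i _ (Nat.sub_le _ _)
    have T0 : T 0 = r * r := by
      funext i
      simp only [Pi.mul_apply]
      rw [hrr]
      simp [T]
    have hsys : Sys (atTop ⊓ 𝓟 S : Filter ℕ) a b r T := by
      refine ⟨ha, hb, hr.mono_left inf_le_left, rpos, fun k i => hx _, ?_, fun k _ => hall k,
        ?_, ?_, hall 2, hall 0⟩
      · intro k
        have h1 : ∀ᶠ i in (atTop : Filter ℕ), T k i * (b * T (k + 3) i + T (k + 4) i) =
            a + T (k + 2) i := by
          filter_upwards [evN (k + 4)] with i hi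
          have h2 := hrec (N i - (k + 4))
          have e1 : N i - (k + 4) + 4 = N i - k := by omega
          have e2 : N i - (k + 4) + 1 = N i - (k + 3) := by omega
          have e3 : N i - (k + 4) + 2 = N i - (k + 2) := by omega
          rw [e1, e2, e3] at h2
          exact h2
        exact h1.filter_mono inf_le_left
      · refine Ob.of_le ?_
        have h1 : ∀ᶠ i in (atTop ⊓ 𝓟 S : Filter ℕ), i ∈ S :=
          (Filter.eventually_principal.mpr fun i hi => hi).filter_mono inf_le_right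
        exact h1
      · refine Ob.of_le (Eventually.of_forall fun i => ?_)
        rw [T0]
        simp only [Pi.mul_apply]
        nlinarith [hrone i, rpos i]
    exact bot_of_sys hsys (Or.inl (by rw [T0]; exact Ob.refl _)) hold
  -- type B
  have hB : (atTop ⊓ 𝓟 Sᶜ : Filter ℕ) = ⊥ := by
    let T : ℕ → ℕ → ℝ := fun k i => x (N i + 2 - k)
    have hold1 : ∀ k, 2 ≤ k → ∀ i, T k i ≤ r i * r i := by
      intro k hk i
      rw [hrr]
      exact hN3 i _ (by omega)
    have hpre : Pre (atTop ⊓ 𝓟 Sᶜ : Filter ℕ) a b r T := by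
      refine ⟨ha, hb, hr.mono_left inf_le_left, rpos, fun k i => hx _, ?_, ?_, ?_, ?_⟩
      · intro k
        have h1 : ∀ᶠ i in (atTop : Filter ℕ), T k i * (b * T (k + 3) i + T (k + 4) i) =
            a + T (k + 2) i := by
          filter_upwards [evN (k + 4)] with i hi
          have h2 := hrec (N i + 2 - (k + 4))
          have e1 : N i + 2 - (k + 4) + 4 = N i + 2 - k := by omega
          have e2 : N i + 2 - (k + 4) + 1 = N i + 2 - (k + 3) := by omega
          have e3 : N i + 2 - (k + 4) + 2 = N i + 2 - (k + 2) := by omega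
          rw [e1, e2, e3] at h2
          exact h2
        exact h1.filter_mono inf_le_left
      · intro k hk
        exact Ob.of_le (Eventually.of_forall fun i => hold1 k (by omega) i)
      · funext i
        simp only [Pi.mul_apply]
        rw [hrr]
        simp [T]
      · refine Ob.of_le ?_
        have h1 : ∀ᶠ i in (atTop ⊓ 𝓟 Sᶜ : Filter ℕ), i ∈ Sᶜ :=
          (Filter.eventually_principal.mpr fun i hi => hi).filter_mono inf_le_right
        filter_upwards [h1] with i hi
        have h2 : ¬ r i ≤ x (N i - 2) := hi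
        have h3 : T 4 i = x (N i - 2) := by
          simp only [T]
          congr 1
        rw [h3]
        exact (not_le.mp h2).le
    refine bot_of_sys hpre.sys (Or.inr (by rw [hpre.P]; exact Ob.refl _)) fun k hk =>
      Eventually.of_forall (hold1 k (by omega))
  have hbot : (atTop : Filter ℕ) = ⊥ := by
    have h1 : (atTop : Filter ℕ) ⊓ (𝓟 S ⊔ 𝓟 Sᶜ) = ⊥ := by
      rw [inf_sup_left, hA, hB, sup_bot_eq]
    rw [sup_principal, Set.union_compl_self, principal_univ, inf_top_eq] at h1
    exact h1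
  exact (NeBot.ne (inferInstance : (atTop : Filter ℕ).NeBot)) hbot

end Pool.Agent.Rat524
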