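import Pool.Agent.Lib_helper55.Rat.Ob

/-!
The backward windows of `x_n (b x_{n-3} + x_{n-4}) = a + x_{n-2}`: the two types of blocks and the
step from one block to the previous one.
-/

set_option autoImplicit false

namespace Pool.Agent.Rat524

open Filter

variable {ι : Type*} {l : Filter ι}

/-- A family of backward windows `T 0, T 1, …` of the recurrence; `r ^ 2` bounds the old terms. -/
structure Sys (l : Filter ι) (a b : ℝ) (r : ι → ℝ) (T : ℕ → ι → ℝ) : Prop where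
  ha : 0 < a
  hb : 0 < b
  hr : Tendsto r l atTop
  rpos : ∀ i, 0 < r i
  pos : ∀ k i, 0 < T k i
  rel : ∀ k, ∀ᶠ i in l, T k i * (b * T (k + 3) i + T (k + 4) i) = a + T (k + 2) i
  old : ∀ k, 3 ≤ k → Ob l (T k) (r * r)
  P_lo : Ob l r (T 2)
  Q_lo : Ob l r (T 0)
  P_hi : Ob l (T 2) (r * r)
  Q_hi : Ob l (T 0) (r * r)

namespace Sys

variable {a b : ℝ} {r : ι → ℝ} {T : ℕ → ι → ℝ}

theorem up1 (h : Sys l a b r T) (k : ℕ) : Ob l (T k * T (k + 3)) (1 + T (k + 2)) := by
  have ha := h.ha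
  have hb := h.hb
  refine Ob.of_mul_le ((a + 1) / b) (by positivity) ?_
  filter_upwards [h.rel k] with i hi
  simp only [Pi.add_apply, Pi.mul_apply, Pi.one_apply]
  have h0 := h.pos k i
  have h2 := h.pos (k + 2) i
  have h3 := h.pos (k + 3) i
  have h4 := h.pos (k + 4) i
  rw [div_mul_eq_mul_div, le_div_iff₀ hb]
  nlinarith [mul_pos h0 h4, mul_pos ha h2]

theorem up2 (h : Sys l a b r T) (k : ℕ) : Ob l (T k * T (k + 4)) (1 + T (k + 2)) := by
  have ha := h.ha
  have hb := h.hb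
  refine Ob.of_mul_le (a + 1) (by positivity) ?_
  filter_upwards [h.rel k] with i hi
  simp only [Pi.add_apply, Pi.mul_apply, Pi.one_apply]
  have h0 := h.pos k i
  have h2 := h.pos (k + 2) i
  have h3 := h.pos (k + 3) i
  have h4 := h.pos (k + 4) i
  nlinarith [mul_pos h0 h3, mul_pos ha h2, mul_pos (mul_pos h0 h3) hb]

theorem lo (h : Sys l a b r T) (k : ℕ) :
    Ob l (1 + T (k + 2)) (T k * (T (k + 3) + T (k + 4))) := by
  have ha := h.ha
  have hb := h.hb
  refine Ob.of_mul_le ((b + 1) * (1 + 1 / a)) (by positivity) ?_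
  filter_upwards [h.rel k] with i hi
  simp only [Pi.add_apply, Pi.mul_apply, Pi.one_apply]
  have h0 := h.pos k i
  have h2 := h.pos (k + 2) i
  have h3 := h.pos (k + 3) i
  have h4 := h.pos (k + 4) i
  have e1 : 1 + T (k + 2) i ≤ (1 + 1 / a) * (a + T (k + 2) i) := by
    have : (1 + 1 / a) * (a + T (k + 2) i) = a + T (k + 2) i + 1 + T (k + 2) i / a := by
      field_simp
      ring
    rw [this]
    have : 0 < T (k + 2) i / a := by positivity
    linarith
  have e2 : a + T (k + 2) i ≤ (b + 1) * (T k i * (T (k + 3) i + T (k + 4) i)) := by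
    rw [← hi]
    nlinarith [mul_pos h0 h3, mul_pos h0 h4, mul_pos (mul_pos h0 h4) hb]
  calc 1 + T (k + 2) i ≤ (1 + 1 / a) * (a + T (k + 2) i) := e1
    _ ≤ (1 + 1 / a) * ((b + 1) * (T k i * (T (k + 3) i + T (k + 4) i))) :=
        mul_le_mul_of_nonneg_left e2 (by positivity)
    _ = _ := by ring

theorem one_pos' : ∀ i : ι, 0 < (1 : ι → ℝ) i := fun _ => one_pos

theorem one_r (h : Sys l a b r T) : Ob l 1 r :=
  Ob.of_le (by
    filter_upwards [h.hr.eventually_ge_atTop 1] with i hi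
    simpa using hi)

theorem one_P (h : Sys l a b r T) : Ob l 1 (T 2) := h.one_r.trans h.P_lo

theorem one_Q (h : Sys l a b r T) : Ob l 1 (T 0) := h.one_r.trans h.Q_lo

theorem r_rr (h : Sys l a b r T) : Ob l r (r * r) := by
  have := h.one_r.mulL h.rpos
  exact this.congr (by ring) rfl

theorem one_rr (h : Sys l a b r T) : Ob l 1 (r * r) := h.one_r.trans h.r_rr

end Sys

theorem pos_mul {f g : ι → ℝ} (hf : ∀ i, 0 < f i) (hg : ∀ i, 0 < g i) : ∀ i, 0 < (f * g) i :=
  fun i => mul_pos (hf i) (hg i)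

theorem pos_add {f g : ι → ℝ} (hf : ∀ i, 0 < f i) (hg : ∀ i, 0 < g i) : ∀ i, 0 < (f + g) i :=
  fun i => add_pos (hf i) (hg i)

/-- The facts about a block of type A (`T 0` is of order `r ^ 2`). -/
structure FactsA (l : Filter ι) (T : ℕ → ι → ℝ) : Prop where
  PQ : Ob l (T 2) (T 0)
  uQ : Ob l (T 0 * T 4) (T 2)
  vQ : Ob l (T 0 * T 3) (T 2)
  u1 : Ob l (T 4) 1
  v1 : Ob l (T 3) 1
  Pe3 : Ob l (T 2 * T 5) 1
  Pe2 : Ob l (T 2 * T 6) 1
  e3 : Ob l (T 5) 1
  e2 : Ob l (T 6) 1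
  vs : Ob l (T 3 * T 7) 1
  QPs : Ob l (T 0) (T 2 * T 7)
  sPQ : Ob l (T 2 * T 7) (T 0)
  q1P : Ob l (T 10) (T 2)
  QQ : Ob l (T 0) (T 9)
  PP : Ob l (T 2) (T 11)

theorem factsA {a b : ℝ} {r : ι → ℝ} {T : ℕ → ι → ℝ} (h : Sys l a b r T)
    (hA : Ob l (r * r) (T 0)) : FactsA l T := by
  have p := h.pos
  have one_P := h.one_P
  have one_Q := h.one_Q
  have PQ : Ob l (T 2) (T 0) := h.P_hi.trans hA
  have onePP : Ob l (1 + T 2) (T 2) := one_P.add (Ob.refl _)
  have oneQQ : Ob l (1 + T 0) (T 0) := one_Q.add (Ob.refl _)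
  have vQ : Ob l (T 0 * T 3) (T 2) := (h.up1 0).trans onePP
  have uQ : Ob l (T 0 * T 4) (T 2) := (h.up2 0).trans onePP
  have u1 : Ob l (T 4) 1 := by
    refine Ob.cancelL (p 0) ?_
    exact (uQ.trans PQ).congr rfl (by ring)
  have v1 : Ob l (T 3) 1 := by
    refine Ob.cancelL (p 0) ?_
    exact (vQ.trans PQ).congr rfl (by ring)
  have Pe3 : Ob l (T 2 * T 5) 1 := (h.up1 2).trans ((Ob.refl _).add u1)
  have Pe2 : Ob l (T 2 * T 6) 1 := (h.up2 2).trans ((Ob.refl _).add u1)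
  have e3 : Ob l (T 5) 1 := ((one_P.mulR (p 5)).congr (by ring) rfl).trans Pe3
  have e2 : Ob l (T 6) 1 := ((one_P.mulR (p 6)).congr (by ring) rfl).trans Pe2
  have vs : Ob l (T 3 * T 7) 1 := (h.up2 3).trans ((Ob.refl _).add e3)
  have us : Ob l (T 4 * T 7) 1 := (h.up1 4).trans ((Ob.refl _).add e2)
  -- `Q ≼ P s`
  have QPs : Ob l (T 0) (T 2 * T 7) := by
    have c1 : Ob l 1 (T 3 * (T 6 + T 7)) := ((Ob.refl _).add_left _ (p 5)).trans (h.lo 3)
    have c2 : Ob l (T 0) (T 0 * (T 3 * (T 6 + T 7))) :=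
      (c1.mulL (p 0)).congr (by ring) rfl
    have c3 : Ob l (T 0 * (T 3 * (T 6 + T 7))) (T 2 * (T 6 + T 7)) :=
      (vQ.mulR (pos_add (p 6) (p 7))).congr (by ring) rfl
    have c4 : Ob l (T 2 * (T 6 + T 7)) (T 2 * T 7 + 1) := by
      refine (Ob.add (f := T 2 * T 6) (g := T 2 * T 7) ?_ ?_).congr (by ring) rfl
      · exact Pe2.add_right _ (pos_mul (p 2) (p 7))
      · exact (Ob.refl _).add_left _ Sys.one_pos'
    refine Ob.absorb h.hr Sys.one_pos' ((c2.trans c3).trans c4) ?_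
    exact h.Q_lo.congr (by ring) rfl
  have sPQ : Ob l (T 2 * T 7) (T 0) := by
    have c1 : Ob l (T 2) (T 0 * (T 3 + T 4)) := ((Ob.refl _).add_right 1 Sys.one_pos').trans (h.lo 0)
    have c2 : Ob l (T 2 * T 7) (T 0 * (T 3 * T 7 + T 4 * T 7)) :=
      (c1.mulR (p 7)).congr rfl (by ring)
    have c3 : Ob l (T 0 * (T 3 * T 7 + T 4 * T 7)) (T 0) :=
      ((vs.add us).mulL (p 0)).congr rfl (by ring)
    exact c2.trans c3
  have Q1hi : Ob l (1 + T 9) (T 0) :=
    one_Q.add ((h.old 9 (by norm_num)).trans hA)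
  have q1P : Ob l (T 10) (T 2) := by
    refine Ob.cancelL (p 7) ?_
    exact (((h.up1 7).trans Q1hi).trans QPs).congr rfl (by ring)
  have P1P : Ob l (T 11) (T 2) := by
    refine Ob.cancelL (p 7) ?_
    exact (((h.up2 7).trans Q1hi).trans QPs).congr rfl (by ring)
  -- `Q ≼ Q1`
  have QQ : Ob l (T 0) (T 9) := by
    have c1 : Ob l (T 7) (T 5 * (T 8 + T 9)) := ((Ob.refl _).add_right 1 Sys.one_pos').trans (h.lo 5)
    have c2 : Ob l (T 2 * T 7) (T 8 + T 9) := by
      have := c1.mulL (p 2)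
      have d := Pe3.mulR (pos_add (p 8) (p 9))
      exact this.trans (d.congr (by ring) (by ring))
    have c3 : Ob l (T 0) (T 8 + T 9) := QPs.trans c2
    have c4 : Ob l (T 8) (T 6 * (T 9 + T 10)) := ((Ob.refl _).add_right 1 Sys.one_pos').trans (h.lo 6)
    have c5 : Ob l (T 2 * T 8) (T 9 + T 2) := by
      have := c4.mulL (p 2)
      have d := Pe2.mulR (pos_add (p 9) (p 10))
      refine (this.trans (d.congr (by ring) (by ring : (1 : ι → ℝ) * (T 9 + T 10) = T 9 + T 10))).trans ?_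
      exact ((Ob.refl _).add_left _ (p 2)).add (q1P.add_right _ (p 9))
    have c6 : Ob l (T 2 * T 0) (T 2 * (1 + T 9)) := by
      have d1 := c3.mulL (p 2)
      refine d1.trans ?_
      refine (Ob.add (f := T 2 * T 8) (g := T 2 * T 9) ?_ ?_).congr (by ring) rfl
      · refine c5.trans (Ob.add ?_ ?_)
        · have d2 := (one_P.mulR (p 9)).congr (by ring : (1 : ι → ℝ) * T 9 = T 9) rfl
          exact (d2.add_left (T 2) (p 2)).congr rfl (by ring)
        · exact ((Ob.refl (T 2)).add_left (T 2 * T 9) (pos_mul (p 2) (p 9))).congr rfl (by ring)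
      · exact ((Ob.refl (T 2 * T 9)).add_left (T 2) (p 2)).congr rfl (by ring)
    have c7 : Ob l (T 0) (T 9 + 1) := (Ob.cancelL (p 2) c6).congr rfl (by ring)
    refine Ob.absorb h.hr Sys.one_pos' c7 ?_
    exact h.Q_lo.congr (by ring) rfl
  have A1 : Ob l (r * r) (T 9) := hA.trans QQ
  -- `P ≼ P1`
  have PP : Ob l (T 2) (T 11) := by
    have hrr := pos_mul h.rpos h.rpos
    have oneP1 : Ob l (1 + T 11) (r * r) := h.one_rr.add (h.old 11 (by norm_num))
    have v1' : Ob l (r * r * T 12) (1 + T 11) := (A1.mulR (p 12)).trans (h.up1 9)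
    have u1' : Ob l (r * r * T 13) (1 + T 11) := (A1.mulR (p 13)).trans (h.up2 9)
    have v1'' : Ob l (T 12) 1 := Ob.cancelL hrr ((v1'.trans oneP1).congr rfl (by ring))
    have onev : Ob l (1 + T 12) 1 := (Ob.refl _).add v1''
    have q1u : Ob l (T 10 * T 13) 1 := (h.up1 10).trans onev
    have q1e : Ob l (T 10 * T 14) 1 := (h.up2 10).trans onev
    have k1 : Ob l (T 10 * T 15) (r * r) := by
      have c : Ob l (T 15) (T 13 * (T 16 + T 17)) :=
        ((Ob.refl _).add_right 1 Sys.one_pos').trans (h.lo 13)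
      have d := c.mulL (p 10)
      have e := q1u.mulR (pos_add (p 16) (p 17))
      refine d.trans ((e.congr (by ring) (by ring : (1 : ι → ℝ) * (T 16 + T 17) = T 16 + T 17)).trans ?_)
      exact (h.old 16 (by norm_num)).add (h.old 17 (by norm_num))
    have k2 : Ob l (T 10 * T 16) (r * r) := by
      have c : Ob l (T 16) (T 14 * (T 17 + T 18)) :=
        ((Ob.refl _).add_right 1 Sys.one_pos').trans (h.lo 14)
      have d := c.mulL (p 10)
      have e := q1e.mulR (pos_add (p 17) (p 18))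
      refine d.trans ((e.congr (by ring) (by ring : (1 : ι → ℝ) * (T 17 + T 18) = T 17 + T 18)).trans ?_)
      exact (h.old 17 (by norm_num)).add (h.old 18 (by norm_num))
    have k3 : Ob l (r * r) ((1 + T 11) * (T 15 + T 16)) := by
      have c : Ob l 1 (T 12 * (T 15 + T 16)) := ((Ob.refl _).add_left _ (p 14)).trans (h.lo 12)
      have d := (c.mulL hrr).congr (by ring : r * r * 1 = r * r) rfl
      have e := v1'.mulR (pos_add (p 15) (p 16))
      exact d.trans (e.congr (by ring) rfl)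
    have k4 : Ob l (r * r * T 10) (r * r * (1 + T 11)) := by
      have d := k3.mulR (p 10)
      have e := (k1.add k2).mulL (pos_add Sys.one_pos' (p 11))
      exact d.trans (e.congr (by ring) (by ring))
    have k5 : Ob l (T 10) (1 + T 11) := Ob.cancelL hrr k4
    have k6 : Ob l (T 2) (T 10 + T 11) := by
      have c : Ob l (T 9) (T 7 * (T 10 + T 11)) :=
        ((Ob.refl _).add_right 1 Sys.one_pos').trans (h.lo 7)
      have d : Ob l (T 7 * T 2) (T 7 * (T 10 + T 11)) :=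
        ((sPQ.trans QQ).trans c).congr (by ring) rfl
      exact Ob.cancelL (p 7) d
    have k7 : Ob l (T 2) (T 11 + 1) := by
      refine k6.trans (Ob.add ?_ ?_)
      · exact k5.congr rfl (by ring)
      · exact (Ob.refl _).add_left _ Sys.one_pos'
    refine Ob.absorb h.hr Sys.one_pos' k7 ?_
    exact h.P_lo.congr (by ring) rfl
  exact ⟨PQ, uQ, vQ, u1, v1, Pe3, Pe2, e3, e2, vs, QPs, sPQ, q1P, QQ, PP⟩

end Pool.Agent.Rat524
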