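import Pool.Agent.Lib_helper55.Rat.Sys

/-!
Blocks of type B (`T 2` is of order `r ^ 2`), shifts, and the sizes of all error terms.
-/

set_option autoImplicit false

namespace Pool.Agent.Rat524

open Filter

variable {ι : Type*} {l : Filter ι}

/-- The facts about a block of type B (`T 2` is of order `r ^ 2`). -/
structure FactsB (l : Filter ι) (T : ℕ → ι → ℝ) : Prop where
  QP : Ob l (T 0) (T 2)
  uQ : Ob l (T 0 * T 4) (T 2)
  vQ : Ob l (T 0 * T 3) (T 2)
  e3 : Ob l (T 5) 1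
  e2 : Ob l (T 6) 1
  ue1 : Ob l (T 4 * T 8) 1
  us : Ob l (T 4 * T 7) 1
  vs : Ob l (T 3 * T 7) 1
  e1 : Ob l (T 8) 1
  Ps : Ob l (T 2 * T 7) (T 9)
  QQ : Ob l (T 0) (T 9)
  PP : Ob l (T 2) (T 11)

theorem factsB {a b : ℝ} {r : ι → ℝ} {T : ℕ → ι → ℝ} (h : Sys l a b r T)
    (hB : Ob l (r * r) (T 2)) : FactsB l T := by
  have p := h.pos
  have one_P := h.one_P
  have one_Q := h.one_Q
  have QP : Ob l (T 0) (T 2) := h.Q_hi.trans hB
  have onePP : Ob l (1 + T 2) (T 2) := one_P.add (Ob.refl _)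
  have vQ : Ob l (T 0 * T 3) (T 2) := (h.up1 0).trans onePP
  have uQ : Ob l (T 0 * T 4) (T 2) := (h.up2 0).trans onePP
  have Q1u : Ob l (T 0 * (1 + T 4)) (T 2) := (QP.add uQ).congr (by ring) rfl
  have Qe3 : Ob l (T 0 * T 5) 1 := by
    refine Ob.cancelL (p 2) ?_
    exact (((h.up1 2).mulL (p 0)).trans Q1u).congr (by ring) (by ring)
  have Qe2 : Ob l (T 0 * T 6) 1 := by
    refine Ob.cancelL (p 2) ?_
    exact (((h.up2 2).mulL (p 0)).trans Q1u).congr (by ring) (by ring)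
  have e3 : Ob l (T 5) 1 := ((one_Q.mulR (p 5)).congr (by ring) rfl).trans Qe3
  have e2 : Ob l (T 6) 1 := ((one_Q.mulR (p 6)).congr (by ring) rfl).trans Qe2
  have ue1 : Ob l (T 4 * T 8) 1 := (h.up2 4).trans ((Ob.refl _).add e2)
  have us : Ob l (T 4 * T 7) 1 := (h.up1 4).trans ((Ob.refl _).add e2)
  have vs : Ob l (T 3 * T 7) 1 := (h.up2 3).trans ((Ob.refl _).add e3)
  have p1u : ∀ i, 0 < (1 + T 4) i := pos_add Sys.one_pos' (p 4)
  -- `e1 ≼ 1`
  have e1 : Ob l (T 8) 1 := by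
    have c1 : Ob l (T 8) (T 6 * (T 9 + T 10)) :=
      ((Ob.refl _).add_right 1 Sys.one_pos').trans (h.lo 6)
    have c2 : Ob l (T 9 + T 10) (r * r) := (h.old 9 (by norm_num)).add (h.old 10 (by norm_num))
    have c3 : Ob l (T 2 * T 8) ((1 + T 4) * T 2) := by
      have d1 := c1.mulL (p 2)
      have d2 := c2.mulL (pos_mul (p 2) (p 6))
      have d3 := (h.up2 2).mulR (pos_mul h.rpos h.rpos)
      have d4 := hB.mulL p1u
      exact ((d1.trans (d2.congr (by ring) rfl)).trans d3).trans d4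
    have c4 : Ob l (T 8) (1 + T 4) := by
      refine Ob.cancelL (p 2) ?_
      exact c3.congr rfl (by ring)
    have c5 : Ob l (T 8 * T 8) (T 8 + 1) := by
      have d := c4.mulL (p 8)
      refine d.trans ?_
      refine (Ob.add (f := T 8) (g := T 4 * T 8) ?_ ?_).congr (by ring) rfl
      · exact (Ob.refl _).add_left _ Sys.one_pos'
      · exact ue1.add_right _ (p 8)
    exact Ob.of_sq (p 8) c5
  -- the main estimate
  have main : Ob l (T 2 * (1 + T 7)) ((1 + T 4) * T 9) := by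
    have c1 : Ob l (1 + T 7) (T 5 * (T 8 + T 9)) := h.lo 5
    have c2 : Ob l (T 2 * (1 + T 7)) ((1 + T 4) * (T 8 + T 9)) := by
      have d1 := c1.mulL (p 2)
      have d2 := (h.up1 2).mulR (pos_add (p 8) (p 9))
      exact d1.trans (d2.congr (by ring) rfl)
    have c3 : Ob l (T 2 * (1 + T 7)) ((1 + T 4) * T 9 + 1) := by
      refine c2.trans ?_
      refine (Ob.add (f := T 8 + T 4 * T 8) (g := (1 + T 4) * T 9) ?_ ?_).congr (by ring) rfl
      · exact (e1.add ue1).add_right _ (pos_mul p1u (p 9))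
      · exact (Ob.refl _).add_left _ Sys.one_pos'
    refine Ob.absorb h.hr Sys.one_pos' c3 ?_
    have d : Ob l (T 2) (T 2 * (1 + T 7)) :=
      ((Ob.refl (T 2)).add_left (T 2 * T 7) (pos_mul (p 2) (p 7))).congr rfl (by ring)
    exact (h.P_lo.trans d).congr (by ring) rfl
  have QQ : Ob l (T 0) (T 9) := by
    have d1 : Ob l (T 2) (T 2 * (1 + T 7)) :=
      ((Ob.refl (T 2)).add_left (T 2 * T 7) (pos_mul (p 2) (p 7))).congr rfl (by ring)
    have d2 := (d1.trans main).mulR (p 0)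
    have d3 := Q1u.mulR (p 9)
    refine Ob.cancelL (p 2) ?_
    exact d2.trans (d3.congr (by ring) rfl)
  have Ps : Ob l (T 2 * T 7) (T 9) := by
    have d1 := main.mulR (p 7)
    have d2 : Ob l ((1 + T 4) * T 7) (1 + T 7) := by
      refine (Ob.add (f := T 7) (g := T 4 * T 7) ?_ ?_).congr (by ring) rfl
      · exact (Ob.refl _).add_right _ Sys.one_pos'
      · exact us.add_left _ (p 7)
    have d3 := d2.mulR (p 9)
    refine Ob.cancelL (pos_add Sys.one_pos' (p 7)) ?_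
    exact (d1.congr (by ring : T 2 * (1 + T 7) * T 7 = (1 + T 7) * (T 2 * T 7)) rfl).trans
      (d3.congr (by ring) rfl)
  have PP : Ob l (T 2) (T 11) := by
    have c1 : Ob l (T 2) (T 10 + T 11) := by
      have c : Ob l (T 9) (T 7 * (T 10 + T 11)) :=
        ((Ob.refl _).add_right 1 Sys.one_pos').trans (h.lo 7)
      refine Ob.cancelL (p 7) ?_
      exact (Ps.trans c).congr (by ring) rfl
    have c2 : Ob l (T 10) (T 11 + T 12) := by
      have c : Ob l (T 10) (T 8 * (T 11 + T 12)) :=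
        ((Ob.refl _).add_right 1 Sys.one_pos').trans (h.lo 8)
      exact c.trans ((e1.mulR (pos_add (p 11) (p 12))).congr rfl (by ring))
    have c3 : Ob l (T 2) (T 11 + T 12) := c1.trans (c2.add ((Ob.refl _).add_left _ (p 12)))
    refine Ob.absorb h.hr (p 12) c3 ?_
    have rQ1 : Ob l r (T 9) := h.Q_lo.trans QQ
    have d1 := (rQ1.mulR (p 12)).trans (h.up1 9)
    exact d1.trans ((h.one_rr.add (h.old 11 (by norm_num))).trans hB)
  exact ⟨QP, uQ, vQ, e3, e2, ue1, us, vs, e1, Ps, QQ, PP⟩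

/-- The system shifted by one block. -/
def sh (T : ℕ → ι → ℝ) : ℕ → ι → ℝ := fun k => T (k + 9)

theorem Sys.shift {a b : ℝ} {r : ι → ℝ} {T : ℕ → ι → ℝ} (h : Sys l a b r T)
    (QQ : Ob l (T 0) (T 9)) (PP : Ob l (T 2) (T 11)) : Sys l a b r (sh T) where
  ha := h.ha
  hb := h.hb
  hr := h.hr
  rpos := h.rpos
  pos := fun k => h.pos (k + 9)
  rel := fun k => by
    have := h.rel (k + 9)
    have e1 : k + 9 + 3 = k + 3 + 9 := by ring
    have e2 : k + 9 + 4 = k + 4 + 9 := by ring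
    have e3 : k + 9 + 2 = k + 2 + 9 := by ring
    rw [e1, e2, e3] at this
    exact this
  old := fun k _ => h.old (k + 9) (by omega)
  P_lo := h.P_lo.trans PP
  Q_lo := h.Q_lo.trans QQ
  P_hi := h.old 11 (by norm_num)
  Q_hi := h.old 9 (by norm_num)

/-- The sizes which are needed for the error terms. -/
structure Sizes (l : Filter ι) (r : ι → ℝ) (T : ℕ → ι → ℝ) : Prop where
  one_rs : Ob l 1 (r * T 7)
  e1 : Ob l (T 8) 1
  e2 : Ob l (T 6) 1
  e3 : Ob l (T 5) 1
  s : Ob l (T 7) r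
  q1 : Ob l (T 10) r
  uq1 : Ob l ((1 + T 4) * T 10) r
  ue1 : Ob l (T 4 * T 8) 1
  Pe1 : Ob l (T 2 * T 8) r
  vQ : Ob l (T 0 * T 3) (T 2)
  uQ : Ob l (T 0 * T 4) (T 2)
  u : Ob l (T 4) r

/-- The bound for `q` in the next block. -/
theorem q_bound {a b : ℝ} {r : ι → ℝ} {T : ℕ → ι → ℝ} (h : Sys l a b r T)
    (vs : Ob l (T 3 * T 7) 1) :
    Ob l (T 1) (1 + T 7 + T 8 + T 3 * T 8) := by
  have p := h.pos
  have c1 : Ob l 1 (T 4 * (T 7 + T 8)) := ((Ob.refl _).add_left _ (p 6)).trans (h.lo 4)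
  have c2 : Ob l (T 1) (T 1 * (T 4 * (T 7 + T 8))) := (c1.mulL (p 1)).congr (by ring) rfl
  have c3 : Ob l (T 1 * (T 4 * (T 7 + T 8))) ((1 + T 3) * (T 7 + T 8)) :=
    ((h.up1 1).mulR (pos_add (p 7) (p 8))).congr (by ring) rfl
  refine (c2.trans c3).trans ?_
  refine (Ob.add (f := T 7 + T 8 + T 3 * T 8) (g := T 3 * T 7) ?_ ?_).congr (by ring) rfl
  · exact ((Ob.refl _).add_right 1 Sys.one_pos').congr rfl (by ring)
  · exact (vs.add_left (T 7 + T 8 + T 3 * T 8)
      (pos_add (pos_add (p 7) (p 8)) (pos_mul (p 3) (p 8)))).congr rfl (by ring)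

theorem sizesA {a b : ℝ} {r : ι → ℝ} {T : ℕ → ι → ℝ} (h : Sys l a b r T)
    (hA : Ob l (r * r) (T 0)) : Sizes l r T := by
  have p := h.pos
  have F := factsA h hA
  have h1 := h.shift F.QQ F.PP
  have hA1 : Ob l (r * r) (sh T 0) := hA.trans F.QQ
  have F1 := factsA h1 hA1
  -- `1 ≼ s`
  have one_s : Ob l 1 (T 7) := by
    refine Ob.cancelL (p 2) ?_
    exact (F.PQ.trans F.QPs).congr (by ring) rfl
  have one_rs : Ob l 1 (r * T 7) := by
    have := one_s.mulL h.rpos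
    exact h.one_r.trans (this.congr (by ring) rfl)
  -- `s ≼ r`, for this block and the next one
  have sr : ∀ {T' : ℕ → ι → ℝ}, Sys l a b r T' → FactsA l T' → Ob l (T' 7) r := by
    intro T' h' F'
    have c1 : Ob l (r * T' 7) (r * r) := by
      have := h'.P_lo.mulR (h'.pos 7)
      exact (this.trans F'.sPQ).trans h'.Q_hi
    exact Ob.cancelL h'.rpos c1
  -- `e1 ≼ 1`
  have e1' : ∀ {T' : ℕ → ι → ℝ}, Sys l a b r T' → FactsA l T' → Ob l (T' 8) 1 := by
    intro T' h' F'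
    have c1 : Ob l (T' 8 * T' 11) (1 + T' 10) := h'.up1 8
    have c2 : Ob l (1 + T' 10) (T' 11) := (h'.one_P.trans F'.PP).add (F'.q1P.trans F'.PP)
    refine Ob.cancelL (h'.pos 11) ?_
    exact (c1.trans c2).congr (by ring) (by ring)
  have e1 := e1' h F
  have e11 : Ob l (T 17) 1 := e1' h1 F1
  have s1 : Ob l (T 16) r := sr h1 F1
  have v1 : Ob l (T 12) 1 := F1.v1
  have q1 : Ob l (T 10) r := by
    have c : Ob l (T 10) (1 + T 16 + T 17 + T 12 * T 17) := q_bound h1 F1.vs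
    have ve : Ob l (T 12 * T 17) 1 := by
      have := v1.mulR (p 17)
      exact (this.congr rfl (by ring)).trans e11
    exact c.trans (((h.one_r.add s1).add (e11.trans h.one_r)).add (ve.trans h.one_r))
  have Pe1 : Ob l (T 2 * T 8) r := by
    have c1 : Ob l (T 8 * T 11) (1 + T 10) := h.up1 8
    have c2 : Ob l (T 2 * T 8) (T 8 * T 11) := (F.PP.mulL (p 8)).congr (by ring) rfl
    exact (c2.trans c1).trans (h.one_r.add q1)
  have ue1 : Ob l (T 4 * T 8) 1 := by
    have := F.u1.mulR (p 8)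
    exact (this.congr rfl (by ring)).trans e1
  have uq1 : Ob l ((1 + T 4) * T 10) r := by
    have := ((Ob.refl 1).add F.u1).mulR (p 10)
    exact (this.congr rfl (by ring)).trans q1
  exact ⟨one_rs, e1, F.e2, F.e3, sr h F, q1, uq1, ue1, Pe1, F.vQ, F.uQ, F.u1.trans h.one_r⟩

theorem sizesB {a b : ℝ} {r : ι → ℝ} {T : ℕ → ι → ℝ} (h : Sys l a b r T)
    (hB : Ob l (r * r) (T 2)) : Sizes l r T := by
  have p := h.pos
  have F := factsB h hB
  have h1 := h.shift F.QQ F.PP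
  have hB1 : Ob l (r * r) (sh T 2) := hB.trans F.PP
  have F1 := factsB h1 hB1
  have h2 := h1.shift F1.QQ F1.PP
  have hB2 : Ob l (r * r) (sh (sh T) 2) := hB1.trans F1.PP
  have F2 := factsB h2 hB2
  -- `v ≼ r`, `u ≼ r`, `s ≼ 1`
  have vr : ∀ {T' : ℕ → ι → ℝ}, Sys l a b r T' → FactsB l T' → Ob l (T' 3) r := by
    intro T' h' F'
    refine Ob.cancelL h'.rpos ?_
    exact ((h'.Q_lo.mulR (h'.pos 3)).trans F'.vQ).trans h'.P_hi
  have ur : ∀ {T' : ℕ → ι → ℝ}, Sys l a b r T' → FactsB l T' → Ob l (T' 4) r := by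
    intro T' h' F'
    refine Ob.cancelL h'.rpos ?_
    exact ((h'.Q_lo.mulR (h'.pos 4)).trans F'.uQ).trans h'.P_hi
  have s1' : ∀ {T' : ℕ → ι → ℝ}, Sys l a b r T' → FactsB l T' → Ob l (r * r) (T' 2) →
      Ob l (T' 7) 1 := by
    intro T' h' F' hB'
    refine Ob.cancelL (pos_mul h'.rpos h'.rpos) ?_
    exact (((hB'.mulR (h'.pos 7)).trans F'.Ps).trans (h'.old 9 (by norm_num))).congr rfl (by ring)
  have one_rs : Ob l 1 (r * T 7) := by
    refine Ob.cancelL h.rpos ?_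
    have c1 : Ob l (T 9) (T 7 * (T 10 + T 11)) :=
      ((Ob.refl _).add_right 1 Sys.one_pos').trans (h.lo 7)
    have c2 := ((h.old 10 (by norm_num)).add (h.old 11 (by norm_num))).mulL (p 7)
    exact (((h.Q_lo.trans F.QQ).trans c1).trans c2).congr (by ring) (by ring)
  -- `q2 ≼ r`
  have q2 : Ob l (T 19) r := by
    have c : Ob l (T 19) (1 + T 25 + T 26 + T 21 * T 26) := q_bound h2 F2.vs
    have s2 : Ob l (T 25) 1 := s1' h2 F2 hB2
    have e12 : Ob l (T 26) 1 := F2.e1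
    have v2 : Ob l (T 21) r := vr h2 F2
    have ve : Ob l (T 21 * T 26) r := by
      have := e12.mulL (p 21)
      exact (this.congr rfl (by ring)).trans v2
    exact c.trans (((h.one_r.add (s2.trans h.one_r)).add (e12.trans h.one_r)).add ve)
  have re11 : Ob l (r * T 17) 1 := by
    refine Ob.cancelL h.rpos ?_
    have c1 : Ob l (T 17 * T 20) (1 + T 19) := h.up1 17
    have c2 : Ob l (r * r * T 17) (T 17 * T 20) :=
      (hB2.mulR (p 17)).congr rfl (by simp only [sh]; ring)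
    exact ((c2.trans c1).trans (h.one_r.add q2)).congr (by ring) (by ring)
  have q1 : Ob l (T 10) 1 := by
    have c : Ob l (T 10) (1 + T 16 + T 17 + T 12 * T 17) := q_bound h1 F1.vs
    have s1 : Ob l (T 16) 1 := s1' h1 F1 hB1
    have e11 : Ob l (T 17) 1 := F1.e1
    have v1 : Ob l (T 12) r := vr h1 F1
    have ve : Ob l (T 12 * T 17) 1 := (v1.mulR (p 17)).trans re11
    exact c.trans ((((Ob.refl 1).add s1).add e11).add ve)
  have Pe1 : Ob l (T 2 * T 8) r := by
    have c1 : Ob l (T 8 * T 11) (1 + T 10) := h.up1 8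
    have c2 : Ob l (T 2 * T 8) (T 8 * T 11) := (F.PP.mulL (p 8)).congr (by ring) rfl
    exact (c2.trans c1).trans (h.one_r.add (q1.trans h.one_r))
  have uq1 : Ob l ((1 + T 4) * T 10) r := by
    have := q1.mulL (pos_add Sys.one_pos' (p 4))
    exact (this.congr rfl (by ring)).trans (h.one_r.add (ur h F))
  exact ⟨one_rs, F.e1, F.e2, F.e3, (s1' h F hB).trans h.one_r, q1.trans h.one_r, uq1, F.ue1, Pe1,
    F.vQ, F.uQ, ur h F⟩

end Pool.Agent.Rat524
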